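import Pool.Agent.W973.SRR.Defs

/-! SRR-STF: stability of an involution. -/

set_option autoImplicit false

namespace Pool.Agent.W609.SRR

open Pool.Agent.W973.SRR Pool.Agent.NPC

theorem likes_iff (h : S_PRS) {n : ℕ} {f : ℕ → ℕ} (hf : IsInv n f) (P : List (List ℕ))
    {a : ℕ} (ha : a < n) (b : ℕ) :
    Likes P (prs n f) a b ↔ Pf P a b (f a) := by
  have hM := (h n f hf).2
  unfold Likes Pf
  constructor
  · intro hl
    exact hl (f a) ((hM a (f a)).2 ⟨ha, rfl⟩)
  · intro hp c hc
    rw [((hM a c).1 hc).2]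
    exact hp

theorem stf (h : S_PRS) : S_STF := by
  intro n P f hf
  have hM := (h n f hf).2
  unfold Stable StF
  constructor
  · intro hs a ha b hb hab hbf hpp
    refine hs a ha b hb hab (fun hm => hbf ((hM a b).1 hm).2) ⟨?_, ?_⟩
    · exact (likes_iff h hf P ha b).2 hpp.1
    · exact (likes_iff h hf P hb a).2 hpp.2
  · intro hs a ha b hb hab hm hl
    refine hs a ha b hb hab (fun hbf => hm ((hM a b).2 ⟨ha, hbf⟩)) ⟨?_, ?_⟩
    · exact (likes_iff h hf P ha b).1 hl.1
    · exact (likes_iff h hf P hb a).1 hl.2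

end Pool.Agent.W609.SRR
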